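import Pool.Agent.Helper80.CB.Stmts

set_option autoImplicit false

/-!
# Complex Banach conjecture, algebra half: module A_TAU
-/

namespace Pool.Agent.Helper80.CB

open MvPolynomial

section tau

variable {r : ℕ} {T : Type} [AddCommGroup T] [Module ℝ T] {c : Module.Basis (Fin r) ℝ T}
  {W : Subgroup (T ≃ₗ[ℝ] T)}

theorem tau_wone : WInv c W 1 := fun w _ x => by simp [val]

theorem tau_wC (a : ℝ) : WInv c W (C a) := fun w _ x => by simp [val]

theorem tau_wadd {P Q : MvPolynomial (Fin r) ℝ} (hP : WInv c W P) (hQ : WInv c W Q) :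
    WInv c W (P + Q) := fun w hw x => by
  have h1 := hP w hw x
  have h2 := hQ w hw x
  simp only [val, map_add] at *
  rw [h1, h2]

theorem tau_wsub {P Q : MvPolynomial (Fin r) ℝ} (hP : WInv c W P) (hQ : WInv c W Q) :
    WInv c W (P - Q) := fun w hw x => by
  have h1 := hP w hw x
  have h2 := hQ w hw x
  simp only [val, map_sub] at *
  rw [h1, h2]

theorem tau_wmul {P Q : MvPolynomial (Fin r) ℝ} (hP : WInv c W P) (hQ : WInv c W Q) :
    WInv c W (P * Q) := fun w hw x => by
  have h1 := hP w hw x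
  have h2 := hQ w hw x
  simp only [val, map_mul] at *
  rw [h1, h2]

theorem tau_wsmul (a : ℝ) {P : MvPolynomial (Fin r) ℝ} (hP : WInv c W P) :
    WInv c W (a • P) := by
  rw [smul_eq_C_mul]
  exact tau_wmul (tau_wC a) hP

/-- Nullstellensatz for finitely many real polynomials -/
theorem tau_null {m : ℕ} (g : Fin m → MvPolynomial (Fin r) ℝ)
    (h : ¬ ∃ τ : Fin r → ℂ, ∀ i, aeval τ (g i) = 0) :
    ∃ q : Fin m → MvPolynomial (Fin r) ℝ, ∑ i, q i * g i = 1 := by
  have h1 : zeroLocus ℂ (Ideal.span (Set.range g)) = ∅ := by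
    rw [zeroLocus_span]
    ext τ
    simp only [Set.mem_ofPred_eq, Set.mem_empty_iff_false, iff_false]
    intro hτ
    exact h ⟨τ, fun i => hτ _ ⟨i, rfl⟩⟩
  have h2 := vanishingIdeal_zeroLocus_eq_radical (K := ℂ) (Ideal.span (Set.range g))
  rw [h1, vanishingIdeal_empty] at h2
  have h3 : Ideal.span (Set.range g) = ⊤ := Ideal.radical_eq_top.1 h2.symm
  exact Ideal.mem_span_range_iff_exists_fun.1 (h3 ▸ Submodule.mem_top)

end tau

theorem st_TAU (hRE : ST_REYN) : ST_TAU := by
  intro r T _ _ c W hW m f d hf hd hfW hind hgen N ψ hψ1 hψm hψa hψs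
  -- the common zero
  set a : Fin m → ℝ := fun i => if d i ≤ N then ψ (f i) else 0 with ha
  obtain ⟨τ, hτ⟩ : ∃ τ : Fin r → ℂ, ∀ i, aeval τ (f i - C (a i)) = 0 := by
    by_contra hcon
    obtain ⟨q, hq⟩ := tau_null (fun i => f i - C (a i)) hcon
    obtain ⟨ρ, ρ1, ρ2, ρ3, -, -⟩ := hRE r T c W hW
    have h1 : ∑ i, (f i - C (a i)) * ρ (q i) = 1 := by
      have h2 := congrArg ρ hq
      rw [map_sum, ρ2 1 tau_wone] at h2
      rw [← h2]
      refine Finset.sum_congr rfl fun i _ => ?_
      rw [mul_comm (q i), ρ3 _ _ (tau_wsub (hfW i) (tau_wC _))]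
    have h2 : ∀ i, ∃ p : MvPolynomial (Fin m) ℝ, aeval f p = ρ (q i) := by
      intro i
      have := hgen _ (ρ1 (q i))
      rw [Algebra.adjoin_range_eq_range_aeval] at this
      exact this
    choose p hp using h2
    have h3 : aeval f (∑ i, (X i - C (a i)) * p i) = (1 : MvPolynomial (Fin r) ℝ) := by
      rw [map_sum, ← h1]
      refine Finset.sum_congr rfl fun i _ => ?_
      rw [map_mul, map_sub, aeval_X, hp i]
      congr 2
      rw [← algebraMap_eq, AlgHom.commutes, algebraMap_eq]
    have h4 : ∑ i, (X i - C (a i)) * p i = (1 : MvPolynomial (Fin m) ℝ) := by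
      apply hind
      rw [h3, map_one]
    have h5 := congrArg (eval a) h4
    rw [map_sum, map_one] at h5
    simp at h5
  have hτa : ∀ i, aeval τ (f i) = ((a i : ℝ) : ℂ) := by
    intro i
    have := hτ i
    rw [map_sub, sub_eq_zero] at this
    rw [this, ← algebraMap_eq, AlgHom.commutes]
    rfl
  refine ⟨τ, fun P k hP hk hPW => ?_, fun P hP => ?_⟩
  · -- monomials in the generators
    have h1 : ∀ M ∈ Submonoid.closure (Set.range f), ∃ e : ℕ, M.IsHomogeneous e ∧ WInv c W M ∧
        (e ≤ N → aeval τ M = ((ψ M : ℝ) : ℂ)) := by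
      intro M hM
      induction hM using Submonoid.closure_induction with
      | mem x hx =>
        obtain ⟨i, rfl⟩ := hx
        refine ⟨d i, hf i, hfW i, fun h => ?_⟩
        rw [hτa, ha]
        simp only [if_pos h]
      | one => exact ⟨0, isHomogeneous_one _ _, tau_wone, fun _ => by rw [hψ1]; simp⟩
      | mul x y _ _ hx hy =>
        obtain ⟨e1, x1, x2, x3⟩ := hx
        obtain ⟨e2, y1, y2, y3⟩ := hy
        refine ⟨e1 + e2, x1.mul y1, tau_wmul x2 y2, fun h => ?_⟩
        rw [map_mul, x3 (by omega), y3 (by omega), hψm x y e1 e2 x1 y1 x2 y2 h]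
        push_cast
        rfl
    have hψ0 : ψ 0 = 0 := by
      have := hψs 0 1 0 (isHomogeneous_one _ _) tau_wone (Nat.zero_le _)
      rwa [zero_smul, zero_mul] at this
    have h2 : ∀ Q ∈ Submodule.span ℝ (Submonoid.closure (Set.range f) :
        Set (MvPolynomial (Fin r) ℝ)),
        WInv c W (homogeneousComponent k Q) ∧
          aeval τ (homogeneousComponent k Q) = ((ψ (homogeneousComponent k Q) : ℝ) : ℂ) := by
      intro Q hQ
      induction hQ using Submodule.span_induction with
      | mem x hx =>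
        obtain ⟨e, x1, x2, x3⟩ := h1 x hx
        rw [homogeneousComponent_of_mem (m := k) (n := e) x1]
        split_ifs with he
        · exact ⟨x2, x3 (by omega)⟩
        · refine ⟨?_, by rw [hψ0]; simp⟩
          rw [← C_0]
          exact tau_wC 0
      | zero =>
        rw [map_zero]
        refine ⟨?_, by rw [hψ0]; simp⟩
        rw [← C_0]
        exact tau_wC 0
      | add x y _ _ hx hy =>
        rw [map_add]
        refine ⟨tau_wadd hx.1 hy.1, ?_⟩
        rw [map_add, hx.2, hy.2, hψa _ _ k (homogeneousComponent_isHomogeneous _ _)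
          (homogeneousComponent_isHomogeneous _ _) hx.1 hy.1 hk]
        push_cast
        rfl
      | smul b x _ hx =>
        rw [map_smul]
        refine ⟨tau_wsmul b hx.1, ?_⟩
        rw [map_smul, hx.2, hψs b _ k (homogeneousComponent_isHomogeneous _ _) hx.1 hk,
          Complex.real_smul]
        push_cast
        rfl
    have h3 := hgen P hPW
    have h4 : P ∈ Submodule.span ℝ (Submonoid.closure (Set.range f) :
        Set (MvPolynomial (Fin r) ℝ)) := by
      rw [← Algebra.adjoin_eq_span]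
      exact h3
    have h5 := (h2 P h4).2
    rw [homogeneousComponent_of_mem (n := k) hP, if_pos rfl] at h5
    exact h5
  · have h1 : Algebra.adjoin ℝ (Set.range f) ≤ (⊥ : Subalgebra ℝ ℂ).comap (aeval τ) := by
      refine Algebra.adjoin_le ?_
      rintro _ ⟨i, rfl⟩
      change aeval τ (f i) ∈ (⊥ : Subalgebra ℝ ℂ)
      rw [hτa]
      exact ⟨a i, rfl⟩
    obtain ⟨x, hx⟩ := Algebra.mem_bot.1 (h1 (hgen P hP))
    exact ⟨x, hx.symm⟩

end Pool.Agent.Helper80.CB
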