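import Pool.Agent.Helper80.CB.Stmts

set_option autoImplicit false

/-!
# Complex Banach conjecture, algebra half: module A_TRANS
-/

namespace Pool.Agent.Helper80.CB

open Matrix MvPolynomial

section trans

variable {n : ℕ} {u : Mat n}

theorem trans_u' (hu : uᴴ * u = 1) : u * uᴴ = 1 := mul_eq_one_comm.1 hu

theorem trans_cancel (hu : uᴴ * u = 1) (X : Mat n) : uᴴ * (u * X * uᴴ) * u = X := by
  calc uᴴ * (u * X * uᴴ) * u = (uᴴ * u) * X * (uᴴ * u) := by simp only [Matrix.mul_assoc]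
    _ = X := by rw [hu, Matrix.one_mul, Matrix.mul_one]

theorem trans_cancel' (hu : uᴴ * u = 1) (X : Mat n) : u * (uᴴ * X * u) * uᴴ = X := by
  calc u * (uᴴ * X * u) * uᴴ = (u * uᴴ) * X * (u * uᴴ) := by simp only [Matrix.mul_assoc]
    _ = X := by rw [trans_u' hu, Matrix.one_mul, Matrix.mul_one]

theorem trans_pow (hu : uᴴ * u = 1) (X : Mat n) (j : ℕ) :
    (u * X * uᴴ) ^ j = u * X ^ j * uᴴ := by
  induction j with
  | zero => rw [pow_zero, pow_zero, Matrix.mul_one, trans_u' hu]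
  | succ j ih =>
    rw [pow_succ, ih, pow_succ]
    calc u * X ^ j * uᴴ * (u * X * uᴴ) = u * X ^ j * (uᴴ * u) * X * uᴴ := by
          simp only [Matrix.mul_assoc]
      _ = _ := by rw [hu, Matrix.mul_one]; simp only [Matrix.mul_assoc]

theorem trans_trace (hu : uᴴ * u = 1) (X : Mat n) :
    Matrix.trace (u * X * uᴴ) = Matrix.trace X := by
  rw [Matrix.trace_mul_comm, ← Matrix.mul_assoc, hu, Matrix.one_mul]

/-- conjugation by `u` -/
noncomputable def transE (D D' : Cpt n) (hu : uᴴ * u = 1)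
    (hh : ∀ X, X ∈ D'.h ↔ uᴴ * X * u ∈ D.h) : D.h ≃ₗ[ℝ] D'.h where
  toFun X := ⟨u * (X : Mat n) * uᴴ, by
    rw [hh, trans_cancel hu]; exact X.2⟩
  map_add' X Y := Subtype.ext (by
    change u * ((X : Mat n) + (Y : Mat n)) * uᴴ = u * (X : Mat n) * uᴴ + u * (Y : Mat n) * uᴴ
    rw [Matrix.mul_add, Matrix.add_mul])
  map_smul' a X := Subtype.ext (by
    change u * (a • (X : Mat n)) * uᴴ = a • (u * (X : Mat n) * uᴴ)
    rw [Matrix.mul_smul, Matrix.smul_mul])
  invFun Y := ⟨uᴴ * (Y : Mat n) * u, (hh _).1 Y.2⟩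
  left_inv X := Subtype.ext (trans_cancel hu _)
  right_inv Y := Subtype.ext (trans_cancel' hu _)

end trans

theorem st_TRANS : ST_TRANS := by
  intro n D D' u hu hS hh
  refine ⟨fun hC g hg => ?_, fun q b φ hφ => ?_⟩
  · obtain ⟨X, hX, hXg⟩ := hC _ ((hS g).1 hg)
    refine ⟨u * X * uᴴ, by rw [hh, trans_cancel hu]; exact hX, ?_⟩
    have hinv : u⁻¹ = uᴴ := Matrix.inv_eq_left_inv hu
    have hun : IsUnit u := ⟨⟨u, uᴴ, trans_u' hu, hu⟩, rfl⟩
    have h1 := Matrix.exp_conj u (Complex.I • X) hun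
    rw [hinv, hXg, trans_cancel' hu] at h1
    rw [← h1]
    congr 1
    rw [Matrix.mul_smul, Matrix.smul_mul]
  · set e := transE D D' hu hh with he
    have hval : ∀ (X : D.h) (P : MvPolynomial (Fin q) ℝ), val (b.map e) (e X) P = val b X P := by
      intro X P
      simp only [val, Module.Basis.map_repr, LinearEquiv.trans_apply, LinearEquiv.symm_apply_apply]
    have hinvp : ∀ P, InvP D' (b.map e) P → InvP D b P := by
      intro P hP g hg X
      have hg' : u * g * uᴴ ∈ D'.S := by rw [hS, trans_cancel hu]; exact hg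
      have h1 := hP _ hg' (e X)
      rw [hval] at h1
      rw [← h1, ← hval]
      congr 1
      refine Subtype.ext ?_
      change u * (g * (X : Mat n) * gᴴ) * uᴴ =
        (u * g * uᴴ) * (u * (X : Mat n) * uᴴ) * (u * g * uᴴ)ᴴ
      rw [conjTranspose_mul, conjTranspose_mul, conjTranspose_conjTranspose]
      calc u * (g * (X : Mat n) * gᴴ) * uᴴ = u * g * 1 * (X : Mat n) * 1 * gᴴ * uᴴ := by
            simp only [Matrix.mul_one, Matrix.mul_assoc]
        _ = u * g * (uᴴ * u) * (X : Mat n) * (uᴴ * u) * gᴴ * uᴴ := by rw [hu]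
        _ = _ := by simp only [Matrix.mul_assoc]
    refine ⟨b.map e, hφ.one, fun P Q d d' hP hQ h1 h2 h3 =>
      hφ.mul P Q d d' hP hQ (hinvp P h1) (hinvp Q h2) h3, fun j h1 h2 P hP h3 =>
      hφ.tr j h1 h2 P hP fun X => ?_⟩
    rw [← hval, h3]
    change (Matrix.trace ((u * (X : Mat n) * uᴴ) ^ j)).re = _
    rw [trans_pow hu, trans_trace hu]

end Pool.Agent.Helper80.CB
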